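import Pool.Agent.N949.TR.Fin2
import Pool.Agent.N477.TR.ANA
import Pool.Agent.N897.TR.PICKE
import Pool.Agent.N73.TR.STEP
import Pool.Agent.N929.EY.All

/-! Project TR: the relative form, unconditionally. -/

set_option autoImplicit false

namespace Pool.Agent.N949.TR

open Pool.Agent.N929.EY

theorem s_trw : S_TRW := trw s_clw Pool.Agent.N477.TR.ana Pool.Agent.N897.TR.picke

theorem s_trb : S_TRB := trb s_trw Pool.Agent.N73.TR.step

end Pool.Agent.N949.TR
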