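import Pool.Agent.N949.TR.Main

/-!
# Regularity in time to all orders: choice of the parameters, general steps
-/

set_option autoImplicit false
set_option maxHeartbeats 4000000
set_option linter.unusedVariables false

namespace Pool.Agent.N949.TR

open Pool.Agent.H976R2 Pool.Agent.H976R2.Dir Finset
open Pool.Agent.N929.EX Pool.Agent.N929.EY
open scoped Classical

noncomputable section

theorem log_lo {n : ℕ} (hn : 2 ≤ n) : (0.476 : ℝ) ≤ Real.log n ^ 2 := by
  have hn' : (2 : ℝ) ≤ n := by exact_mod_cast hn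
  have hlog : (0.69 : ℝ) ≤ Real.log n := by
    have := Real.log_two_gt_d9
    have h3 : Real.log 2 ≤ Real.log n := Real.log_le_log (by norm_num) hn'
    linarith
  nlinarith

theorem trm (hc : S_CLW) (hana : S_ANA) (hpick : S_PICK) : S_TRM := by
  intro k
  obtain ⟨κ, hκ, hp⟩ := hpick
  obtain ⟨C1, κ', hC1, hκ', ha⟩ := hana k (4 * κ) (by omega)
  obtain ⟨A1, C2, hA1, hC2, hp⟩ := hp k (2 * (k + 1))
  obtain ⟨Q, hQ⟩ : ∃ Q, Q = 16 * κ * κ' * (k + 1) := ⟨_, rfl⟩
  have hκκ : 1 ≤ κ * κ' := Nat.one_le_iff_ne_zero.mpr (by positivity)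
  have hQ16 : 16 * (k + 1) ≤ Q := by
    rw [hQ]
    calc 16 * (k + 1) = 16 * 1 * (k + 1) := by ring
      _ ≤ 16 * (κ * κ') * (k + 1) := by gcongr
      _ = _ := by ring
  have hQR : (1 : ℝ) ≤ Q := by
    have : 1 ≤ Q := by omega
    exact_mod_cast this
  refine ⟨2 * A1 + 10 * Q, 3 * C1 * (3 * Q) ^ k + 2 ^ k * (2 * C2) * 2 ^ k, by positivity,
    by positivity, fun n p u m v l hn hn2 hu hv h hh => ?_⟩
  have hlog := log_lo hn2
  have hAl : 0 ≤ A1 * Real.log n ^ 2 := by positivity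
  have hQl : (Q : ℝ) * 0.476 ≤ Q * Real.log n ^ 2 := mul_le_mul_of_nonneg_left hlog (by positivity)
  have huA : 2 * (A1 * Real.log n ^ 2) + 4 * Q ≤ (u : ℝ) := by nlinarith
  have hvA : 2 * (A1 * Real.log n ^ 2) + 4 * Q ≤ (v : ℝ) := by nlinarith
  obtain ⟨M, hM⟩ : ∃ M, M = min u v := ⟨_, rfl⟩
  have hMu : M ≤ u := by omega
  have hMv : M ≤ v := by omega
  have hu4 : 4 * Q ≤ u := by
    have : ((4 * Q : ℕ) : ℝ) ≤ u := by push_cast; linarith
    exact_mod_cast this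
  have hv4 : 4 * Q ≤ v := by
    have : ((4 * Q : ℕ) : ℝ) ≤ v := by push_cast; linarith
    exact_mod_cast this
  have hM4 : 4 * Q ≤ M := by omega
  obtain ⟨R, hR⟩ : ∃ R, R = Nat.sqrt (M / (2 * Q)) := ⟨_, rfl⟩
  have hQ0 : 0 < 2 * Q := by omega
  have hR1 : 1 ≤ R := by
    rw [hR, Nat.le_sqrt, Nat.le_div_iff_mul_le hQ0]
    omega
  have hR2 : Q * (R ^ 2 + 1) ≤ M := by
    have h1 : R ^ 2 ≤ M / (2 * Q) := by
      rw [hR]
      exact Nat.sqrt_le' _
    have h2 : R ^ 2 * (2 * Q) ≤ M := (Nat.le_div_iff_mul_le hQ0).mp h1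
    nlinarith
  have hR3 : M < 8 * Q * R ^ 2 := by
    have h1 : M / (2 * Q) < (R + 1) ^ 2 := by
      rw [hR]
      exact Nat.lt_succ_sqrt' _
    have h2 : M < (R + 1) ^ 2 * (2 * Q) := (Nat.div_lt_iff_lt_mul hQ0).mp h1
    have h3 : (R + 1) ^ 2 ≤ 4 * R ^ 2 := by nlinarith
    calc M < (R + 1) ^ 2 * (2 * Q) := h2
      _ ≤ 4 * R ^ 2 * (2 * Q) := Nat.mul_le_mul_right _ h3
      _ = _ := by ring
  -- the windows
  obtain ⟨W, hW⟩ : ∃ W : Fin (2 * (k + 1)) → ℕ × ℕ, ∀ t, W t = if (t : ℕ) ≤ k then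
    (p, p + u + 2 * (t : ℕ)) else (p + u + 2 * ((t : ℕ) - (k + 1)) + m, p + u + m + v) :=
    ⟨_, fun _ => rfl⟩
  have hMR : (M : ℝ) / 2 ≥ 1 := by
    have : 4 ≤ M := by omega
    have : (4 : ℝ) ≤ M := by exact_mod_cast this
    linarith
  obtain ⟨L, hL, hbad⟩ := hp n hn2 W ((M : ℝ) / 2) hMR (by
    intro t
    rw [hW]
    have ht := t.isLt
    split_ifs with htk
    · refine ⟨by simp only; omega, by simp only; omega, ?_, ?_⟩
      · simp only; push_cast; nlinarith [Nat.cast_nonneg (α := ℝ) (t : ℕ)]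
      · simp only
        have e : p + u + 2 * (t : ℕ) - p = u + 2 * (t : ℕ) := by omega
        rw [e]
        have : (M : ℝ) ≤ u := by exact_mod_cast hMu
        push_cast
        nlinarith [Nat.cast_nonneg (α := ℝ) (t : ℕ), Nat.cast_nonneg (α := ℝ) M]
    · refine ⟨by simp only; omega, by simp only; omega, ?_, ?_⟩
      · simp only
        have h1 : v ≤ 2 * (v - 2 * ((t : ℕ) - (k + 1))) := by omega
        have h2 : (v : ℝ) ≤ 2 * ((v - 2 * ((t : ℕ) - (k + 1)) : ℕ) : ℝ) := by exact_mod_cast h1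
        have h3 : ((p + u + m + v : ℕ) : ℝ) - ((p + u + 2 * ((t : ℕ) - (k + 1)) + m : ℕ) : ℝ) =
            ((v - 2 * ((t : ℕ) - (k + 1)) : ℕ) : ℝ) := by
          rw [← Nat.cast_sub (by omega)]
          congr 1
          omega
        rw [h3]
        nlinarith
      · simp only
        have h1 : v ≤ 2 * (v - 2 * ((t : ℕ) - (k + 1))) := by omega
        have h2 : (v : ℝ) ≤ 2 * ((v - 2 * ((t : ℕ) - (k + 1)) : ℕ) : ℝ) := by exact_mod_cast h1
        have e : p + u + m + v - (p + u + 2 * ((t : ℕ) - (k + 1)) + m) =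
          v - 2 * ((t : ℕ) - (k + 1)) := by omega
        rw [e]
        have : (M : ℝ) ≤ v := by exact_mod_cast hMv
        linarith)
  have hβ : 0 ≤ C2 / ((M : ℝ) / 2) ^ k := by positivity
  have hb1 : ∀ e, e ≤ k → (((SW n).filter (fun w => ¬ GK κ L p (p + u + 2 * e) w)).card : ℝ) ≤
      C2 / ((M : ℝ) / 2) ^ k * ((SW n).card : ℝ) := by
    intro e he
    have := hbad ⟨e, by omega⟩
    rw [hW] at this
    simp only [he, if_true] at this
    exact this
  have hb2 : ∀ e, e ≤ k → (((SW n).filter (fun w =>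
      ¬ GK κ L (p + u + 2 * e + m) (p + u + m + v) w)).card : ℝ) ≤
      C2 / ((M : ℝ) / 2) ^ k * ((SW n).card : ℝ) := by
    intro e he
    have := hbad ⟨e + (k + 1), by omega⟩
    rw [hW] at this
    have h1 : ¬ (e + (k + 1) ≤ k) := by omega
    have h2 : e + (k + 1) - (k + 1) = e := by omega
    simp only [h1, if_false, h2] at this
    exact this
  have key := onefam hc hL hn (k := k) (C := C1) (β := C2 / ((M : ℝ) / 2) ^ k) hκ hκ' hR1 hC1 hβ
    (fun S S' i j g1 g2 g3 g4 g5 g6 g7 g8 => ha S S' i j R hR1 g1 g2 g3 g4 g5 g6 g7 g8)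
    (by rw [← hQ]; exact hR2.trans hMu) (by rw [← hQ]; exact hR2.trans hMv) hb1 hb2 h hh
  refine key.trans ?_
  refine mul_le_mul_of_nonneg_right ?_ (Nat.cast_nonneg _)
  -- the constants
  have hM0 : (0 : ℝ) < M := by
    have : 0 < M := by omega
    exact_mod_cast this
  have hM1 : (1 : ℝ) ≤ M := by
    have : 1 ≤ M := by omega
    exact_mod_cast this
  have hR0 : (0 : ℝ) < R := by
    have : 0 < R := by omega
    exact_mod_cast this
  obtain ⟨s, hs⟩ : ∃ s : ℝ, s = 1 / Real.sqrt M := ⟨_, rfl⟩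
  have hsM : 0 < Real.sqrt M := Real.sqrt_pos.mpr hM0
  have hs0 : 0 < s := by rw [hs]; positivity
  have hsuv : s ≤ 1 / Real.sqrt u + 1 / Real.sqrt v := by
    rcases le_total u v with hle | hle
    · have : M = u := by omega
      rw [hs, this]
      have : 0 ≤ 1 / Real.sqrt v := by positivity
      linarith
    · have : M = v := by omega
      rw [hs, this]
      have : 0 ≤ 1 / Real.sqrt u := by positivity
      linarith
  have hRs : 1 / (R : ℝ) ≤ 3 * Q * s := by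
    rw [hs, mul_one_div, div_le_div_iff₀ hR0 hsM, one_mul]
    have h1 : (M : ℝ) ≤ (3 * Q * R) ^ 2 := by
      have h2 : (M : ℝ) ≤ 8 * Q * R ^ 2 := by exact_mod_cast hR3.le
      have h3 : (8 : ℝ) * Q ≤ 9 * Q ^ 2 := by nlinarith
      calc (M : ℝ) ≤ 8 * Q * R ^ 2 := h2
        _ ≤ 9 * Q ^ 2 * R ^ 2 := mul_le_mul_of_nonneg_right h3 (sq_nonneg _)
        _ = _ := by ring
    exact Real.sqrt_le_iff.mpr ⟨by positivity, h1⟩
  have hMs : 1 / ((M : ℝ) / 2) ≤ 2 * s := by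
    rw [hs]
    have h1 : Real.sqrt M ≤ M := by
      rw [Real.sqrt_le_left hM0.le]
      nlinarith
    rw [one_div_div, mul_one_div]
    exact div_le_div_of_nonneg_left (by norm_num) hsM h1
  have e1 : 3 * C1 / (R : ℝ) ^ k ≤ 3 * C1 * (3 * Q) ^ k * s ^ k := by
    calc 3 * C1 / (R : ℝ) ^ k = 3 * C1 * (1 / (R : ℝ)) ^ k := by
          rw [one_div, inv_pow]; rfl
      _ ≤ 3 * C1 * (3 * Q * s) ^ k := by gcongr
      _ = _ := by rw [mul_pow]; ring
  have e2 : 2 ^ k * (2 * (C2 / ((M : ℝ) / 2) ^ k)) ≤ 2 ^ k * (2 * C2) * 2 ^ k * s ^ k := by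
    calc 2 ^ k * (2 * (C2 / ((M : ℝ) / 2) ^ k)) = 2 ^ k * (2 * C2) * (1 / ((M : ℝ) / 2)) ^ k := by
          rw [one_div, inv_pow, div_eq_mul_inv]
          ring
      _ ≤ 2 ^ k * (2 * C2) * (2 * s) ^ k := by gcongr
      _ = _ := by rw [mul_pow]; ring
  calc 3 * C1 / (R : ℝ) ^ k + 2 ^ k * (2 * (C2 / ((M : ℝ) / 2) ^ k))
      ≤ (3 * C1 * (3 * Q) ^ k + 2 ^ k * (2 * C2) * 2 ^ k) * s ^ k := by linarith
    _ ≤ _ := by gcongr

/-- TRS: the `k`-th differences with step `2 * s` -/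
theorem trs (htr : S_TRM) (hst : S_STEP) (k : ℕ) : ∃ A C : ℝ, 0 < A ∧ 0 < C ∧
    ∀ n p u m v l s : ℕ, n = p + u + m + v + l → 2 ≤ n → 1 ≤ s → 2 * (k * s) ≤ v →
      A * Real.log n ^ 2 ≤ u → A * Real.log n ^ 2 ≤ v → ∀ h : TP → ℝ, (∀ X, |h X| ≤ 1) →
      |∑ d ∈ range (k + 1), (-1 : ℝ) ^ d * (k.choose d : ℝ) *
        ∑ w ∈ SW n, h (tr p (p + u + 2 * (s * d)) m (p + u + m + v) l w)| ≤
      C * (s * (1 / Real.sqrt u + 1 / Real.sqrt v)) ^ k * ((SW n).card : ℝ) := by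
  obtain ⟨A, C, hA, hC, h⟩ := htr k
  refine ⟨2 * A, C * 2 ^ k + (8 * (k + 1)) ^ k, by positivity, by positivity,
    fun n p u m v l s hn hn2 hs hks hu hv g hg => ?_⟩
  have hlog := log_lo hn2
  have hAl : 0 < A * Real.log n ^ 2 := by positivity
  have hu0 : (0 : ℝ) < u := by nlinarith
  have hv0 : (0 : ℝ) < v := by nlinarith
  have hv1 : (1 : ℝ) ≤ v := by
    have : 0 < v := by exact_mod_cast hv0
    exact_mod_cast this
  have hsR : (1 : ℝ) ≤ s := by exact_mod_cast hs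
  obtain ⟨c, hcc⟩ : ∃ c : ℝ, c = ((SW n).card : ℝ) := ⟨_, rfl⟩
  have hc0 : 0 ≤ c := by rw [hcc]; positivity
  obtain ⟨F, hF⟩ : ∃ F : ℕ → ℝ, ∀ e, F e =
    ∑ w ∈ SW n, g (tr p (p + u + 2 * e) m (p + u + m + v) l w) := ⟨_, fun _ => rfl⟩
  have hFc : ∀ e, |F e| ≤ c := by
    intro e
    rw [hF, hcc]
    calc _ ≤ ∑ w ∈ SW n, |g (tr p (p + u + 2 * e) m (p + u + m + v) l w)| :=
          Finset.abs_sum_le_sum_abs _ _
      _ ≤ ∑ w ∈ SW n, (1 : ℝ) := Finset.sum_le_sum (fun w _ => hg _)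
      _ = _ := by simp
  have e0 : ∑ d ∈ range (k + 1), (-1 : ℝ) ^ d * (k.choose d : ℝ) *
        ∑ w ∈ SW n, g (tr p (p + u + 2 * (s * d)) m (p + u + m + v) l w) =
      ∑ d ∈ range (k + 1), (-1 : ℝ) ^ d * (k.choose d : ℝ) * F (s * d) :=
    Finset.sum_congr rfl (fun d _ => by rw [hF])
  rw [e0, ← hcc]
  have hsu : 0 < 1 / Real.sqrt u := by positivity
  have hsv : 0 < 1 / Real.sqrt v := by positivity
  obtain ⟨q, hq⟩ : ∃ q : ℝ, q = 1 / Real.sqrt u + 1 / Real.sqrt v := ⟨_, rfl⟩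
  have hq0 : 0 < q := by rw [hq]; positivity
  rw [← hq]
  rcases Nat.lt_or_ge v (4 * (k * s)) with hk | hk
  · -- trivial case
    have h1 : |∑ d ∈ range (k + 1), (-1 : ℝ) ^ d * (k.choose d : ℝ) * F (s * d)| ≤ 2 ^ k * c := by
      calc _ ≤ ∑ d ∈ range (k + 1), |(-1 : ℝ) ^ d * (k.choose d : ℝ) * F (s * d)| :=
            Finset.abs_sum_le_sum_abs _ _
        _ ≤ ∑ d ∈ range (k + 1), (k.choose d : ℝ) * c := by
            refine Finset.sum_le_sum (fun d hd => ?_)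
            rw [abs_mul, abs_mul, abs_pow, abs_neg, abs_one, one_pow, one_mul, Nat.abs_cast]
            exact mul_le_mul_of_nonneg_left (hFc _) (Nat.cast_nonneg _)
        _ = _ := by
            rw [← Finset.sum_mul]
            congr 1
            have := Nat.sum_range_choose k
            exact_mod_cast this
    refine h1.trans ?_
    have h2 : (v : ℝ) ≤ 4 * (k * s) := by exact_mod_cast hk.le
    have h3 : Real.sqrt v ≤ v := by
      rw [Real.sqrt_le_left hv0.le]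
      nlinarith
    have h4 : 1 ≤ 4 * (k + 1) * (s * q) := by
      have h5 : 1 ≤ 4 * (k * s) * (1 / Real.sqrt v) := by
        rw [mul_one_div, le_div_iff₀ (Real.sqrt_pos.mpr hv0)]
        linarith
      have h6 : 1 / Real.sqrt v ≤ q := by rw [hq]; linarith
      have h7 : 4 * (k * s) * (1 / Real.sqrt v) ≤ 4 * (k * s) * q := by gcongr
      have h8 : 0 ≤ 4 * (s * q) := by positivity
      nlinarith
    have h9 : (2 : ℝ) ^ k ≤ (8 * (k + 1)) ^ k * (s * q) ^ k := by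
      rw [← mul_pow]
      refine pow_le_pow_left₀ (by norm_num) ?_ k
      linarith
    have h10 : 0 ≤ C * 2 ^ k * (s * q) ^ k := by positivity
    refine mul_le_mul_of_nonneg_right ?_ hc0
    linarith
  · have key := hst k s F (C * 2 ^ k * q ^ k * c) hs (by
      intro e he
      have hek : 4 * e ≤ v := by omega
      have hv2 : (v : ℝ) / 2 ≤ ((v - 2 * e : ℕ) : ℝ) := by
        have : v ≤ 2 * (v - 2 * e) := by omega
        have : (v : ℝ) ≤ 2 * ((v - 2 * e : ℕ) : ℝ) := by exact_mod_cast this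
        linarith
      have key := h n p (u + 2 * e) m (v - 2 * e) l (by omega) hn2
        (by push_cast; nlinarith [Nat.cast_nonneg (α := ℝ) e])
        (by nlinarith) g hg
      have e2 : p + (u + 2 * e) + m + (v - 2 * e) = p + u + m + v := by omega
      have e1 : ∀ d, p + (u + 2 * e) + 2 * d = p + u + 2 * (e + d) := by intro d; omega
      rw [e2] at key
      simp only [e1, ← hF] at key
      rw [← hcc] at key
      refine key.trans ?_
      have k1 : 1 / Real.sqrt ((u + 2 * e : ℕ) : ℝ) ≤ 1 / Real.sqrt u := by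
        apply one_div_le_one_div_of_le (Real.sqrt_pos.mpr hu0)
        apply Real.sqrt_le_sqrt
        push_cast
        nlinarith [Nat.cast_nonneg (α := ℝ) e]
      have k2 : 1 / Real.sqrt ((v - 2 * e : ℕ) : ℝ) ≤ 2 * (1 / Real.sqrt v) := by
        have k3 : Real.sqrt v ≤ 2 * Real.sqrt ((v - 2 * e : ℕ) : ℝ) := by
          have : Real.sqrt v ≤ Real.sqrt (4 * ((v - 2 * e : ℕ) : ℝ)) := by
            apply Real.sqrt_le_sqrt
            linarith
          rw [Real.sqrt_mul (by norm_num)] at this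
          have h4 : Real.sqrt 4 = 2 := by
            rw [show (4 : ℝ) = 2 ^ 2 by norm_num, Real.sqrt_sq (by norm_num)]
          rwa [h4] at this
        have k4 : 0 < Real.sqrt v := Real.sqrt_pos.mpr hv0
        have k5 : 0 < Real.sqrt ((v - 2 * e : ℕ) : ℝ) := by linarith
        rw [div_le_iff₀ k5]
        rw [mul_one_div, div_mul_eq_mul_div, le_div_iff₀ k4]
        linarith
      have k3 : 1 / Real.sqrt ((u + 2 * e : ℕ) : ℝ) + 1 / Real.sqrt ((v - 2 * e : ℕ) : ℝ) ≤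
          2 * q := by rw [hq]; linarith
      refine mul_le_mul_of_nonneg_right ?_ hc0
      calc C * (1 / Real.sqrt ((u + 2 * e : ℕ) : ℝ) + 1 / Real.sqrt ((v - 2 * e : ℕ) : ℝ)) ^ k
          ≤ C * (2 * q) ^ k := by gcongr
        _ = _ := by rw [mul_pow]; ring)
    refine key.trans ?_
    have h9 : 0 ≤ (8 * ((k : ℝ) + 1)) ^ k * (s * q) ^ k * c := by positivity
    calc (s : ℝ) ^ k * (C * 2 ^ k * q ^ k * c) = C * 2 ^ k * (s * q) ^ k * c := by
          rw [mul_pow]; ring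
      _ ≤ C * 2 ^ k * (s * q) ^ k * c + (8 * ((k : ℝ) + 1)) ^ k * (s * q) ^ k * c :=
          le_add_of_nonneg_right h9
      _ = _ := by ring

end

end Pool.Agent.N949.TR
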