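import Pool.Agent.N949.TR.Main2
import Pool.Agent.N949.TR.Fin

/-!
# Regularity in time to all orders, relative form: choice of the parameters, general steps
-/

set_option autoImplicit false
set_option maxHeartbeats 4000000
set_option linter.unusedVariables false

namespace Pool.Agent.N949.TR

open Pool.Agent.H976R2 Pool.Agent.H976R2.Dir Finset
open Pool.Agent.N929.EX Pool.Agent.N929.EY
open scoped Classical

noncomputable section

theorem SH_nonneg {n p m r l : ℕ} {h : TP → ℝ} (hh : ∀ X, 0 ≤ h X) (t : ℕ) :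
    0 ≤ SH n p m r l h t := Finset.sum_nonneg (fun w _ => hh _)

theorem trw (hc : S_CLW) (hana : S_ANA) (hpick : S_PICKE) : S_TRW := by
  intro k
  obtain ⟨κ, hκ, hp⟩ := hpick
  obtain ⟨C1, κ', hC1, hκ', ha⟩ := hana k (4 * κ) (by omega)
  obtain ⟨A1, C2, hA1, hC2, hp⟩ := hp (2 * (k + 1))
  obtain ⟨Q, hQ⟩ : ∃ Q, Q = 16 * κ * κ' * (k + 1) := ⟨_, rfl⟩
  have hκκ : 1 ≤ κ * κ' := Nat.one_le_iff_ne_zero.mpr (by positivity)
  have hQ16 : 16 * (k + 1) ≤ Q := by
    rw [hQ]
    calc 16 * (k + 1) = 16 * 1 * (k + 1) := by ring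
      _ ≤ 16 * (κ * κ') * (k + 1) := by gcongr
      _ = _ := by ring
  have hQR : (1 : ℝ) ≤ Q := by
    have : 1 ≤ Q := by omega
    exact_mod_cast this
  refine ⟨2 * Q, 2 * A1 + 10 * Q, C1 * (3 * Q) ^ k + 2 ^ k * (2 * C2) + 2 * C2, by omega,
    by positivity, by positivity, fun n p u m v l M hn hn2 hAM hMu hMv h hh => ?_⟩
  have hlog := log_lo hn2
  have hAl : 0 ≤ A1 * Real.log n ^ 2 := by positivity
  have hQl : (Q : ℝ) * 0.476 ≤ Q * Real.log n ^ 2 := mul_le_mul_of_nonneg_left hlog (by positivity)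
  have hMA : 2 * (A1 * Real.log n ^ 2) + 4 * Q ≤ (M : ℝ) := by nlinarith
  have hMuR : (M : ℝ) ≤ u := by exact_mod_cast hMu
  have hMvR : (M : ℝ) ≤ v := by exact_mod_cast hMv
  have hM4 : 4 * Q ≤ M := by
    have : ((4 * Q : ℕ) : ℝ) ≤ M := by push_cast; linarith
    exact_mod_cast this
  obtain ⟨R, hR⟩ : ∃ R, R = Nat.sqrt (M / (2 * Q)) := ⟨_, rfl⟩
  rw [← hR]
  have hQ0 : 0 < 2 * Q := by omega
  have hR1 : 1 ≤ R := by
    rw [hR, Nat.le_sqrt, Nat.le_div_iff_mul_le hQ0]
    omega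
  have hR2 : Q * (R ^ 2 + 1) ≤ M := by
    have h1 : R ^ 2 ≤ M / (2 * Q) := by
      rw [hR]
      exact Nat.sqrt_le' _
    have h2 : R ^ 2 * (2 * Q) ≤ M := (Nat.le_div_iff_mul_le hQ0).mp h1
    nlinarith
  have hR3 : M < 8 * Q * R ^ 2 := by
    have h1 : M / (2 * Q) < (R + 1) ^ 2 := by
      rw [hR]
      exact Nat.lt_succ_sqrt' _
    have h2 : M < (R + 1) ^ 2 * (2 * Q) := (Nat.div_lt_iff_lt_mul hQ0).mp h1
    have h3 : (R + 1) ^ 2 ≤ 4 * R ^ 2 := by nlinarith
    calc M < (R + 1) ^ 2 * (2 * Q) := h2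
      _ ≤ 4 * R ^ 2 * (2 * Q) := Nat.mul_le_mul_right _ h3
      _ = _ := by ring
  -- the windows
  obtain ⟨W, hW⟩ : ∃ W : Fin (2 * (k + 1)) → ℕ × ℕ, ∀ t, W t = if (t : ℕ) ≤ k then
    (p, p + u + 2 * (t : ℕ)) else (p + u + 2 * ((t : ℕ) - (k + 1)) + m, p + u + m + v) :=
    ⟨_, fun _ => rfl⟩
  obtain ⟨L, hL, hbad⟩ := hp n hn2 W ((M : ℝ) / 2) (by positivity) (by
    intro t
    rw [hW]
    have ht := t.isLt
    split_ifs with htk
    · refine ⟨by simp only; omega, by simp only; omega, ?_, ?_⟩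
      · simp only; push_cast; nlinarith [Nat.cast_nonneg (α := ℝ) (t : ℕ)]
      · simp only
        have e : p + u + 2 * (t : ℕ) - p = u + 2 * (t : ℕ) := by omega
        rw [e]
        push_cast
        nlinarith [Nat.cast_nonneg (α := ℝ) (t : ℕ), Nat.cast_nonneg (α := ℝ) M]
    · refine ⟨by simp only; omega, by simp only; omega, ?_, ?_⟩
      · simp only
        have h1 : v ≤ 2 * (v - 2 * ((t : ℕ) - (k + 1))) := by omega
        have h2 : (v : ℝ) ≤ 2 * ((v - 2 * ((t : ℕ) - (k + 1)) : ℕ) : ℝ) := by exact_mod_cast h1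
        have h3 : ((p + u + m + v : ℕ) : ℝ) - ((p + u + 2 * ((t : ℕ) - (k + 1)) + m : ℕ) : ℝ) =
            ((v - 2 * ((t : ℕ) - (k + 1)) : ℕ) : ℝ) := by
          rw [← Nat.cast_sub (by omega)]
          congr 1
          omega
        rw [h3]
        nlinarith
      · simp only
        have h1 : v ≤ 2 * (v - 2 * ((t : ℕ) - (k + 1))) := by omega
        have h2 : (v : ℝ) ≤ 2 * ((v - 2 * ((t : ℕ) - (k + 1)) : ℕ) : ℝ) := by exact_mod_cast h1
        have e : p + u + m + v - (p + u + 2 * ((t : ℕ) - (k + 1)) + m) =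
          v - 2 * ((t : ℕ) - (k + 1)) := by omega
        rw [e]
        linarith)
  obtain ⟨β, hβd⟩ : ∃ β : ℝ, β = C2 * Real.exp (-((M : ℝ) / 2 / C2)) := ⟨_, rfl⟩
  rw [← hβd] at hbad
  have hβ : 0 ≤ β := by rw [hβd]; positivity
  have hb1 : ∀ e, e ≤ k → (((SW n).filter (fun w => ¬ GK κ L p (p + u + 2 * e) w)).card : ℝ) ≤
      β * ((SW n).card : ℝ) := by
    intro e he
    have := hbad ⟨e, by omega⟩
    rw [hW] at this
    simp only [he, if_true] at this
    exact this
  have hb2 : ∀ e, e ≤ k → (((SW n).filter (fun w =>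
      ¬ GK κ L (p + u + 2 * e + m) (p + u + m + v) w)).card : ℝ) ≤
      β * ((SW n).card : ℝ) := by
    intro e he
    have := hbad ⟨e + (k + 1), by omega⟩
    rw [hW] at this
    have h1 : ¬ (e + (k + 1) ≤ k) := by omega
    have h2 : e + (k + 1) - (k + 1) = e := by omega
    simp only [h1, if_false, h2] at this
    exact this
  have key := onefam2 hc hL hn (k := k) (C := C1) (β := β) hκ hκ' hR1 hC1 hβ
    (fun S S' i j g1 g2 g3 g4 g5 g6 g7 g8 => ha S S' i j R hR1 g1 g2 g3 g4 g5 g6 g7 g8)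
    (by rw [← hQ]; exact hR2.trans hMu) (by rw [← hQ]; exact hR2.trans hMv) hb1 hb2 h hh
  refine key.trans ?_
  -- the constants
  have hM0 : (0 : ℝ) < M := by
    have : 0 < M := by omega
    exact_mod_cast this
  have hR0 : (0 : ℝ) < R := by
    have : 0 < R := by omega
    exact_mod_cast this
  have hsM : 0 < Real.sqrt M := Real.sqrt_pos.mpr hM0
  have hRs : 1 / (R : ℝ) ≤ 3 * Q / Real.sqrt M := by
    rw [div_le_div_iff₀ hR0 hsM, one_mul]
    have h1 : (M : ℝ) ≤ (3 * Q * R) ^ 2 := by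
      have h2 : (M : ℝ) ≤ 8 * Q * R ^ 2 := by exact_mod_cast hR3.le
      have h3 : (8 : ℝ) * Q ≤ 9 * Q ^ 2 := by nlinarith
      calc (M : ℝ) ≤ 8 * Q * R ^ 2 := h2
        _ ≤ 9 * Q ^ 2 * R ^ 2 := mul_le_mul_of_nonneg_right h3 (sq_nonneg _)
        _ = _ := by ring
    exact Real.sqrt_le_iff.mpr ⟨by positivity, h1⟩
  obtain ⟨C, hC⟩ : ∃ C : ℝ, C = C1 * (3 * Q) ^ k + 2 ^ k * (2 * C2) + 2 * C2 := ⟨_, rfl⟩
  have hCa : C1 * (3 * Q) ^ k ≤ C := by rw [hC]; have : 0 ≤ 2 ^ k * (2 * C2) + 2 * C2 := by positivity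
                                        linarith
  have hCb : 2 ^ k * (2 * C2) ≤ C := by
    rw [hC]; have : 0 ≤ C1 * (3 * Q) ^ k + 2 * C2 := by positivity
    linarith
  have hCc : 2 * C2 ≤ C := by
    rw [hC]; have : 0 ≤ C1 * (3 * Q) ^ k + 2 ^ k * (2 * C2) := by positivity
    linarith
  have hC0 : 0 < C := by linarith
  rw [← hC]
  have e1 : C1 / (R : ℝ) ^ k ≤ C / Real.sqrt M ^ k := by
    calc C1 / (R : ℝ) ^ k = C1 * (1 / (R : ℝ)) ^ k := by
          rw [one_div, inv_pow]; rfl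
      _ ≤ C1 * (3 * Q / Real.sqrt M) ^ k := by gcongr
      _ = C1 * (3 * Q) ^ k / Real.sqrt M ^ k := by rw [div_pow]; ring
      _ ≤ C / Real.sqrt M ^ k := by gcongr
  have e2 : 2 ^ k * (2 * β) ≤ C * Real.exp (-(M / C)) := by
    have h1 : Real.exp (-((M : ℝ) / 2 / C2)) ≤ Real.exp (-(M / C)) := by
      apply Real.exp_le_exp.mpr
      have : (M : ℝ) / C ≤ (M : ℝ) / 2 / C2 := by
        rw [div_div]
        exact div_le_div_of_nonneg_left hM0.le (by positivity) hCc
      linarith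
    calc 2 ^ k * (2 * β) = 2 ^ k * (2 * C2) * Real.exp (-((M : ℝ) / 2 / C2)) := by rw [hβd]; ring
      _ ≤ C * Real.exp (-(M / C)) := mul_le_mul hCb h1 (Real.exp_pos _).le hC0.le
  have hS : 0 ≤ SH n p m (p + u + m + v) l (fun X => |h X|) (p + u - 2 * R) +
        SH n p m (p + u + m + v) l (fun X => |h X|) (p + u) +
        SH n p m (p + u + m + v) l (fun X => |h X|) (p + u + 2 * R) := by
    have s0 := SH_nonneg (n := n) (p := p) (m := m) (r := p + u + m + v) (l := l)
      (h := fun X => |h X|) (fun X => abs_nonneg _)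
    linarith [s0 (p + u - 2 * R), s0 (p + u), s0 (p + u + 2 * R)]
  exact add_le_add (mul_le_mul_of_nonneg_right e1 hS)
    (mul_le_mul_of_nonneg_right e2 (Nat.cast_nonneg _))

/-- TRB: the `k`-th differences with step `2 * s` -/
def S_TRB : Prop :=
  ∀ k : ℕ, ∃ A C : ℝ, 0 < A ∧ 0 < C ∧
    ∀ n p u m v l M s : ℕ, n = p + u + m + v + l → 2 ≤ n → 1 ≤ s →
      A * Real.log n ^ 2 ≤ M → M ≤ u → M + 2 * (k * s) ≤ v →
      ∀ h : TP → ℝ, (∀ X, |h X| ≤ 1) → ∀ B : ℝ, 0 ≤ B →
      (∀ t, p + u ≤ t + 2 * Nat.sqrt M → t ≤ p + u + 2 * (k * s) + 2 * Nat.sqrt M →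
        t % 2 = (p + u) % 2 → SH n p m (p + u + m + v) l (fun X => |h X|) t ≤ B) →
      |∑ d ∈ range (k + 1), (-1 : ℝ) ^ d * (k.choose d : ℝ) *
        SH n p m (p + u + m + v) l h (p + u + 2 * (s * d))| ≤
      C * (s / Real.sqrt M) ^ k * B + C * Real.exp (-(M / C)) * ((SW n).card : ℝ)

theorem trb (htr : S_TRW) (hst : S_STEP) : S_TRB := by
  intro k
  obtain ⟨Q, A, C, hQ4, hA, hC, h⟩ := htr k
  obtain ⟨G, hG⟩ : ∃ G : ℝ, G = C * ((k.factorial : ℝ) * (2 * C) ^ k) := ⟨_, rfl⟩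
  have hG0 : 0 < G := by
    rw [hG]
    have : (0 : ℝ) < k.factorial := by exact_mod_cast Nat.factorial_pos k
    positivity
  refine ⟨A, 3 * C + 2 ^ k + G + 2 * C, by positivity, by positivity,
    fun n p u m v l M s hn hn2 hs hAM hMu hMv g hg B hB hBt => ?_⟩
  obtain ⟨E, hE⟩ : ∃ E : ℝ, E = 3 * C + 2 ^ k + G + 2 * C := ⟨_, rfl⟩
  rw [← hE]
  have h2k : (0 : ℝ) < 2 ^ k := by positivity
  have hE0 : 0 < E := by rw [hE]; positivity
  have hlog := log_lo hn2
  have hM0 : (0 : ℝ) < M := by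
    have : 0 < A * Real.log n ^ 2 := by positivity
    linarith
  have hM1 : (1 : ℝ) ≤ M := by
    have : 0 < M := by exact_mod_cast hM0
    exact_mod_cast this
  have hsM : 0 < Real.sqrt M := Real.sqrt_pos.mpr hM0
  have hsR : (1 : ℝ) ≤ s := by exact_mod_cast hs
  obtain ⟨c, hcc⟩ : ∃ c : ℝ, c = ((SW n).card : ℝ) := ⟨_, rfl⟩
  have hc0 : 0 ≤ c := by rw [hcc]; positivity
  obtain ⟨F, hF⟩ : ∃ F : ℕ → ℝ, ∀ e, F e = SH n p m (p + u + m + v) l g (p + u + 2 * e) :=
    ⟨_, fun _ => rfl⟩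
  have habs : ∀ t, |SH n p m (p + u + m + v) l g t| ≤
      SH n p m (p + u + m + v) l (fun X => |g X|) t := fun t => Finset.abs_sum_le_sum_abs _ _
  have e0 : ∑ d ∈ range (k + 1), (-1 : ℝ) ^ d * (k.choose d : ℝ) *
        SH n p m (p + u + m + v) l g (p + u + 2 * (s * d)) =
      ∑ d ∈ range (k + 1), (-1 : ℝ) ^ d * (k.choose d : ℝ) * F (s * d) :=
    Finset.sum_congr rfl (fun d _ => by rw [hF])
  rw [e0, ← hcc]
  have hexp0 : 0 ≤ E * Real.exp (-(M / E)) * c := by positivity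
  rcases le_or_gt (Real.sqrt M) (s : ℝ) with hks | hks
  · -- large steps
    have h1 : |∑ d ∈ range (k + 1), (-1 : ℝ) ^ d * (k.choose d : ℝ) * F (s * d)| ≤ 2 ^ k * B := by
      calc _ ≤ ∑ d ∈ range (k + 1), |(-1 : ℝ) ^ d * (k.choose d : ℝ) * F (s * d)| :=
            Finset.abs_sum_le_sum_abs _ _
        _ ≤ ∑ d ∈ range (k + 1), (k.choose d : ℝ) * B := by
            refine Finset.sum_le_sum (fun d hd => ?_)
            rw [abs_mul, abs_mul, abs_pow, abs_neg, abs_one, one_pow, one_mul, Nat.abs_cast]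
            refine mul_le_mul_of_nonneg_left ?_ (Nat.cast_nonneg _)
            rw [hF]
            refine (habs _).trans (hBt _ (by omega) ?_ (by omega))
            have hd' : d ≤ k := by have := mem_range.mp hd; omega
            have hsd : s * d ≤ k * s := by rw [mul_comm k s]; exact Nat.mul_le_mul_left _ hd'
            omega
        _ = _ := by
            rw [← Finset.sum_mul]
            congr 1
            have := Nat.sum_range_choose k
            exact_mod_cast this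
    have h2 : (1 : ℝ) ≤ (s / Real.sqrt M) ^ k := by
      apply one_le_pow₀
      rw [le_div_iff₀ hsM]
      linarith
    have h3 : 2 ^ k * B ≤ E * (s / Real.sqrt M) ^ k * B := by
      refine mul_le_mul_of_nonneg_right ?_ hB
      calc (2 : ℝ) ^ k ≤ E := by rw [hE]; linarith
        _ = E * 1 := (mul_one E).symm
        _ ≤ E * (s / Real.sqrt M) ^ k := mul_le_mul_of_nonneg_left h2 hE0.le
    linarith
  · have hRM : Nat.sqrt (M / Q) ≤ Nat.sqrt M := Nat.sqrt_le_sqrt (Nat.div_le_self _ _)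
    have key := hst k s F (C / Real.sqrt M ^ k * (3 * B) + C * Real.exp (-(M / C)) * c) hs (by
      intro e he
      have key := h n p (u + 2 * e) m (v - 2 * e) l M (by omega) hn2 hAM (by omega) (by omega) g hg
      have e2 : p + (u + 2 * e) + m + (v - 2 * e) = p + u + m + v := by omega
      have e1 : ∀ d, p + (u + 2 * e) + 2 * d = p + u + 2 * (e + d) := by intro d; omega
      rw [e2] at key
      simp only [e1, ← hF] at key
      rw [← hcc] at key
      refine key.trans ?_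
      have hR2 : 2 * Nat.sqrt (M / Q) ≤ u := by
        have h4 : Nat.sqrt (M / Q) ≤ M / Q := Nat.sqrt_le_self _
        have h5 : M / Q ≤ M / 4 := Nat.div_le_div_left hQ4 (by norm_num)
        omega
      have b1 := hBt (p + (u + 2 * e) - 2 * Nat.sqrt (M / Q)) (by omega) (by omega) (by omega)
      have b2 := hBt (p + (u + 2 * e)) (by omega) (by omega) (by omega)
      have b3 := hBt (p + u + 2 * (e + Nat.sqrt (M / Q))) (by omega) (by omega) (by omega)
      have hCM : 0 ≤ C / Real.sqrt M ^ k := by positivity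
      have h5 := mul_le_mul_of_nonneg_left (add_le_add (add_le_add b1 b2) b3) hCM
      linarith)
    refine key.trans ?_
    have h3 : (s : ℝ) ^ k * (C / Real.sqrt M ^ k * (3 * B)) ≤ E * (s / Real.sqrt M) ^ k * B := by
      rw [div_pow]
      have e3 : (s : ℝ) ^ k * (C / Real.sqrt M ^ k * (3 * B)) =
        3 * C * ((s : ℝ) ^ k / Real.sqrt M ^ k) * B := by ring
      rw [e3]
      refine mul_le_mul_of_nonneg_right ?_ hB
      refine mul_le_mul_of_nonneg_right ?_ (by positivity)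
      rw [hE]; linarith
    have h4 : (s : ℝ) ^ k * (C * Real.exp (-(M / C))) ≤ E * Real.exp (-(M / E)) := by
      have h5 : (s : ℝ) ^ k ≤ (M : ℝ) ^ k := by
        refine pow_le_pow_left₀ (by linarith) ?_ k
        have h6 : Real.sqrt M ≤ M := by
          rw [Real.sqrt_le_left hM0.le]
          nlinarith
        linarith
      have h7 : (M : ℝ) ^ k ≤ ((k.factorial : ℝ) * (2 * C) ^ k) * Real.exp (M / (2 * C)) := by
        have h8 := Real.pow_div_factorial_le_exp ((M : ℝ) / (2 * C)) (by positivity) k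
        have hf : (0 : ℝ) < k.factorial := by exact_mod_cast Nat.factorial_pos k
        rw [div_pow, div_div, div_le_iff₀ (by positivity)] at h8
        linarith
      have h9 : Real.exp (M / (2 * C)) * Real.exp (-(M / C)) = Real.exp (-(M / (2 * C))) := by
        rw [← Real.exp_add]
        congr 1
        field_simp
        ring
      have h10 : Real.exp (-(M / (2 * C))) ≤ Real.exp (-(M / E)) := by
        apply Real.exp_le_exp.mpr
        have : (M : ℝ) / E ≤ M / (2 * C) :=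
          div_le_div_of_nonneg_left hM0.le (by positivity) (by rw [hE]; linarith)
        linarith
      calc (s : ℝ) ^ k * (C * Real.exp (-(M / C)))
          ≤ (M : ℝ) ^ k * (C * Real.exp (-(M / C))) :=
            mul_le_mul_of_nonneg_right h5 (by positivity)
        _ ≤ (((k.factorial : ℝ) * (2 * C) ^ k) * Real.exp (M / (2 * C))) *
              (C * Real.exp (-(M / C))) := mul_le_mul_of_nonneg_right h7 (by positivity)
        _ = G * (Real.exp (M / (2 * C)) * Real.exp (-(M / C))) := by rw [hG]; ring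
        _ = G * Real.exp (-(M / (2 * C))) := by rw [h9]
        _ ≤ E * Real.exp (-(M / E)) := mul_le_mul (by rw [hE]; linarith) h10
            (Real.exp_pos _).le hE0.le
    have h5 := mul_le_mul_of_nonneg_right h4 hc0
    calc (s : ℝ) ^ k * (C / Real.sqrt M ^ k * (3 * B) + C * Real.exp (-(M / C)) * c)
        = (s : ℝ) ^ k * (C / Real.sqrt M ^ k * (3 * B)) +
          (s : ℝ) ^ k * (C * Real.exp (-(M / C))) * c := by ring
      _ ≤ _ := add_le_add h3 h5

end

end Pool.Agent.N949.TR
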