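import Pool.Agent.N949.TR.Stm

/-!
# Regularity in time, relative form: statements
-/

set_option autoImplicit false
set_option linter.unusedVariables false

namespace Pool.Agent.N949.TR

open Pool.Agent.H976R2 Pool.Agent.H976R2.Dir Finset
open Pool.Agent.N929.EX Pool.Agent.N929.EY
open scoped Classical

noncomputable section

/-- PICKE: one family which is good in several windows for most walks, exponentially small error -/
def S_PICKE : Prop :=
  ∃ κ : ℕ, 1 ≤ κ ∧ ∀ N : ℕ, ∃ A C : ℝ, 0 < A ∧ 0 < C ∧ ∀ n : ℕ, 2 ≤ n →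
    ∀ (W : Fin N → ℕ × ℕ) (x : ℝ), 0 ≤ x →
      (∀ t, (W t).1 ≤ (W t).2 ∧ (W t).2 ≤ n ∧ A * Real.log n ^ 2 ≤ ((W t).2 : ℝ) - (W t).1 ∧
        x ≤ (((W t).2 - (W t).1 : ℕ) : ℝ)) →
      ∃ L : Finset (ℤ × ℤ), CF L ∧
        ∀ t, (((SW n).filter (fun w => ¬ GK κ L (W t).1 (W t).2 w)).card : ℝ) ≤
          C * Real.exp (-(x / C)) * ((SW n).card : ℝ)

/-- the sum of `h` over the walks, the middle piece beginning at the time `t` -/
def SH (n p m r l : ℕ) (h : TP → ℝ) (t : ℕ) : ℝ := ∑ w ∈ SW n, h (tr p t m r l w)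

/-- TRW: the `k`-th differences with step 2, relative form -/
def S_TRW : Prop :=
  ∀ k : ℕ, ∃ (Q : ℕ) (A C : ℝ), 4 ≤ Q ∧ 0 < A ∧ 0 < C ∧ ∀ n p u m v l M : ℕ,
    n = p + u + m + v + l → 2 ≤ n → A * Real.log n ^ 2 ≤ M → M ≤ u → M ≤ v →
    ∀ h : TP → ℝ, (∀ X, |h X| ≤ 1) →
      |∑ d ∈ range (k + 1), (-1 : ℝ) ^ d * (k.choose d : ℝ) *
        SH n p m (p + u + m + v) l h (p + u + 2 * d)| ≤
      C / Real.sqrt M ^ k *
        (SH n p m (p + u + m + v) l (fun X => |h X|) (p + u - 2 * Nat.sqrt (M / Q)) +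
          SH n p m (p + u + m + v) l (fun X => |h X|) (p + u) +
          SH n p m (p + u + m + v) l (fun X => |h X|) (p + u + 2 * Nat.sqrt (M / Q))) +
      C * Real.exp (-(M / C)) * ((SW n).card : ℝ)

end

end Pool.Agent.N949.TR
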