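import Pool.Agent.N949.TR.Main
import Pool.Agent.N949.TR.Stm2

/-!
# Regularity in time to all orders: assembly of the relative form
-/

set_option autoImplicit false
set_option maxHeartbeats 4000000
set_option linter.unusedVariables false

namespace Pool.Agent.N949.TR

open Pool.Agent.H976R2 Pool.Agent.H976R2.Dir Finset
open Pool.Agent.N929.EX Pool.Agent.N929.EY
open scoped Classical

noncomputable section

/-- the walks in different classes are different -/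
theorem disw {L : Finset (ℤ × ℤ)} {n p u m v l : ℕ} (hn : n = p + u + m + v + l)
    (K : Finset KL) (d : ℕ) (hK : ∀ x ∈ K, 2 * x.2.2.2.1 ≤ u ∧ 2 * x.2.2.2.2 ≤ v ∧
      d ≤ x.2.2.2.2) (g : TP → ℝ) (hg : ∀ X, 0 ≤ g X) :
    ∑ x ∈ K, g x.1 * ((Hd L p u m v l x d).card : ℝ) ≤
      SH n p m (p + u + m + v) l g (p + u + 2 * d) := by
  have hdisj : ∀ x ∈ K, ∀ x' ∈ K, x ≠ x' →
      Disjoint (Hd L p u m v l x d) (Hd L p u m v l x' d) := by
    intro x hx x' hx' hne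
    rw [Finset.disjoint_left]
    intro w hw hw'
    apply hne
    obtain ⟨g1, g2, g3⟩ := hK x hx
    obtain ⟨g1', g2', g3'⟩ := hK x' hx'
    rw [Hd_mem hn g1 g2 g3] at hw
    rw [Hd_mem hn g1' g2' g3'] at hw'
    obtain ⟨-, a1, a2, a3, a4, a5⟩ := hw
    obtain ⟨-, b1, b2, b3, b4, b5⟩ := hw'
    have c4 := a4.symm.trans b4
    have c5 := a5.symm.trans b5
    refine Prod.ext (a1.symm.trans b1) (Prod.ext (a2.symm.trans b2)
      (Prod.ext (a3.symm.trans b3) (Prod.ext ?_ ?_)))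
    · show x.2.2.2.1 = x'.2.2.2.1
      omega
    · show x.2.2.2.2 = x'.2.2.2.2
      omega
  have hun : ∑ w ∈ K.biUnion (fun x => Hd L p u m v l x d),
      g (tr p (p + u + 2 * d) m (p + u + m + v) l w) =
      ∑ x ∈ K, g x.1 * ((Hd L p u m v l x d).card : ℝ) := by
    rw [Finset.sum_biUnion hdisj]
    refine Finset.sum_congr rfl (fun x hx => ?_)
    obtain ⟨g1, g2, g3⟩ := hK x hx
    rw [Finset.sum_congr rfl (fun w hw => by
      rw [((Hd_mem hn g1 g2 g3 w).mp hw).2.1]), Finset.sum_const, nsmul_eq_mul]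
    ring
  rw [← hun]
  unfold SH
  refine Finset.sum_le_sum_of_subset_of_nonneg ?_ (fun w _ _ => hg _)
  intro w hw
  rw [mem_biUnion] at hw
  obtain ⟨x, hx, hw⟩ := hw
  obtain ⟨g1, g2, g3⟩ := hK x hx
  rw [Hd_mem hn g1 g2 g3] at hw
  exact hw.1

/-- the estimate for one good family -/
theorem onefam2 (hc : S_CLW) {L : Finset (ℤ × ℤ)} (hL : CF L) {n p u m v l : ℕ}
    (hn : n = p + u + m + v + l) {k κ κ' R : ℕ} {C β : ℝ} (hκ : 1 ≤ κ) (hκ' : 1 ≤ κ') (hR : 1 ≤ R)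
    (hC : 0 < C) (hβ : 0 ≤ β)
    (hana : ∀ S S' i j : ℕ,
      κ' * R ^ 2 ≤ S → κ' * R ^ 2 ≤ S' → S ≤ (4 * κ) * i → i ≤ S → S ≤ (4 * κ) * (S - i) →
      S' ≤ (4 * κ) * j → j ≤ S' → S' ≤ (4 * κ) * (S' - j) →
      |∑ d ∈ range (k + 1), (-1 : ℝ) ^ d * (k.choose d : ℝ) * bn S S' i j (R + d)| ≤
        C / (R : ℝ) ^ k * (bn S S' i j 0 + bn S S' i j R + bn S S' i j (2 * R)))
    (hu : 16 * κ * κ' * (k + 1) * (R ^ 2 + 1) ≤ u) (hv : 16 * κ * κ' * (k + 1) * (R ^ 2 + 1) ≤ v)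
    (hbad1 : ∀ e, e ≤ k →
      (((SW n).filter (fun w => ¬ GK κ L p (p + u + 2 * e) w)).card : ℝ) ≤ β * ((SW n).card : ℝ))
    (hbad2 : ∀ e, e ≤ k →
      (((SW n).filter (fun w => ¬ GK κ L (p + u + 2 * e + m) (p + u + m + v) w)).card : ℝ) ≤
        β * ((SW n).card : ℝ))
    (h : TP → ℝ) (hh : ∀ X, |h X| ≤ 1) :
    |∑ d ∈ range (k + 1), (-1 : ℝ) ^ d * (k.choose d : ℝ) *
        ∑ w ∈ SW n, h (tr p (p + u + 2 * d) m (p + u + m + v) l w)| ≤
      C / (R : ℝ) ^ k * (SH n p m (p + u + m + v) l (fun X => |h X|) (p + u - 2 * R) +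
        SH n p m (p + u + m + v) l (fun X => |h X|) (p + u) +
        SH n p m (p + u + m + v) l (fun X => |h X|) (p + u + 2 * R)) +
      2 ^ k * (2 * β) * ((SW n).card : ℝ) := by
  obtain ⟨c, hcc⟩ : ∃ c : ℝ, c = ((SW n).card : ℝ) := ⟨_, rfl⟩
  have hc0 : 0 ≤ c := by rw [hcc]; positivity
  rw [← hcc] at hbad1 hbad2 ⊢
  have hRk : k + R ^ 2 ≤ (k + 1) * (R ^ 2 + 1) := by nlinarith
  have hRR : R ≤ R ^ 2 := by nlinarith
  have hbig : 16 * (κ * κ') * (k + R ^ 2) ≤ u := by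
    calc 16 * (κ * κ') * (k + R ^ 2) ≤ 16 * (κ * κ') * ((k + 1) * (R ^ 2 + 1)) :=
          Nat.mul_le_mul_left _ hRk
      _ = 16 * κ * κ' * (k + 1) * (R ^ 2 + 1) := by ring
      _ ≤ u := hu
  have hbig' : 16 * (κ * κ') * (k + R ^ 2) ≤ v := by
    calc 16 * (κ * κ') * (k + R ^ 2) ≤ 16 * (κ * κ') * ((k + 1) * (R ^ 2 + 1)) :=
          Nat.mul_le_mul_left _ hRk
      _ = 16 * κ * κ' * (k + 1) * (R ^ 2 + 1) := by ring
      _ ≤ v := hv
  have hκκ : 1 ≤ κ * κ' := Nat.one_le_iff_ne_zero.mpr (by positivity)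
  -- quotients
  have hquo : ∀ U, 16 * (κ * κ') * (k + R ^ 2) ≤ U → ∀ U', U ≤ U' + 2 * k → U' ≤ U + 2 * k →
      4 * (k + R) ≤ U' / κ ∧ κ' * R ^ 2 ≤ U' / κ ∧ U' ≤ 2 * κ * (U' / κ) := by
    intro U hU U' hU1 hU2
    have h1 : 16 * (κ * κ') * (k + R ^ 2) ≤ U' + 2 * k := hU.trans hU1
    have h2 : 2 * k ≤ 8 * (κ * κ') * (k + R ^ 2) := by nlinarith
    have h3 : 8 * (κ * κ') * (k + R ^ 2) ≤ U' := by
      have : 16 * (κ * κ') * (k + R ^ 2) = 8 * (κ * κ') * (k + R ^ 2) +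
        8 * (κ * κ') * (k + R ^ 2) := by ring
      omega
    have h4 : 8 * κ' * (k + R ^ 2) ≤ U' / κ := by
      rw [Nat.le_div_iff_mul_le (by omega)]
      calc 8 * κ' * (k + R ^ 2) * κ = 8 * (κ * κ') * (k + R ^ 2) := by ring
        _ ≤ U' := h3
    have h5 : 8 * (k + R ^ 2) ≤ 8 * κ' * (k + R ^ 2) := by nlinarith
    refine ⟨by omega, ?_, ?_⟩
    · refine le_trans ?_ h4
      nlinarith
    · have h6 : 1 ≤ U' / κ := by
        have : 1 ≤ R ^ 2 := by nlinarith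
        omega
      have h7 := Nat.div_add_mod U' κ
      have h8 := Nat.mod_lt U' (show 0 < κ by omega)
      nlinarith
  -- base windows
  obtain ⟨u0, hu0⟩ : ∃ u0, u0 = u - 2 * R := ⟨_, rfl⟩
  obtain ⟨v0, hv0⟩ : ∃ v0, v0 = v + 2 * R := ⟨_, rfl⟩
  have hRu : 2 * R + 2 * k ≤ u := by nlinarith
  have hRv : 2 * R + 2 * k ≤ v := by nlinarith
  have hn0 : n = p + u0 + m + v0 + l := by omega
  -- the classes
  obtain ⟨κe, hκe⟩ : ∃ κe : ℕ → List Dir → KL, ∀ e w, κe e w =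
    (tr p (p + u + 2 * e) m (p + u + m + v) l w,
      DD L 1 (p, p + u + 2 * e) w, DD L 1 (p + u + 2 * e + m, p + u + m + v) w,
      (OO L 1 (p, p + u + 2 * e) w).card - (R + e),
      (OO L 1 (p + u + 2 * e + m, p + u + m + v) w).card + (R + e)) := ⟨_, fun _ _ => rfl⟩
  obtain ⟨K, hK⟩ : ∃ K, K = ((range (k + 1)).biUnion (fun e => (SW n).image (κe e))).filter
    (fun x : KL => (2 * x.2.2.2.1 ≤ u0 ∧ 2 * x.2.2.2.2 ≤ v0 ∧ 2 * R + k ≤ x.2.2.2.2) ∧
      κ' * R ^ 2 ≤ x.2.1.card ∧ κ' * R ^ 2 ≤ x.2.2.1.card ∧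
      x.2.1.card ≤ (4 * κ) * x.2.2.2.1 ∧ x.2.2.2.1 ≤ x.2.1.card ∧
      x.2.1.card ≤ (4 * κ) * (x.2.1.card - x.2.2.2.1) ∧
      x.2.2.1.card ≤ (4 * κ) * x.2.2.2.2 ∧ x.2.2.2.2 ≤ x.2.2.1.card ∧
      x.2.2.1.card ≤ (4 * κ) * (x.2.2.1.card - x.2.2.2.2)) := ⟨_, rfl⟩
  have hKx : ∀ x ∈ K, (2 * x.2.2.2.1 ≤ u0 ∧ 2 * x.2.2.2.2 ≤ v0 ∧ 2 * R + k ≤ x.2.2.2.2) ∧
      κ' * R ^ 2 ≤ x.2.1.card ∧ κ' * R ^ 2 ≤ x.2.2.1.card ∧
      x.2.1.card ≤ (4 * κ) * x.2.2.2.1 ∧ x.2.2.2.1 ≤ x.2.1.card ∧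
      x.2.1.card ≤ (4 * κ) * (x.2.1.card - x.2.2.2.1) ∧
      x.2.2.1.card ≤ (4 * κ) * x.2.2.2.2 ∧ x.2.2.2.2 ≤ x.2.2.1.card ∧
      x.2.2.1.card ≤ (4 * κ) * (x.2.2.1.card - x.2.2.2.2) := by
    intro x hx
    rw [hK, mem_filter] at hx
    exact hx.2
  have hKd : ∀ d, d ≤ 2 * R + k → ∀ x ∈ K, 2 * x.2.2.2.1 ≤ u0 ∧ 2 * x.2.2.2.2 ≤ v0 ∧
      d ≤ x.2.2.2.2 := by
    intro d hd x hx
    obtain ⟨⟨g1, g2, g3⟩, -⟩ := hKx x hx
    exact ⟨g1, g2, by omega⟩
  obtain ⟨H, hH⟩ : ∃ H : ℕ → KL → ℝ, ∀ d x, H d x = ((Hd L p u0 m v0 l x d).card : ℝ) :=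
    ⟨_, fun _ _ => rfl⟩
  have hH0 : ∀ d x, 0 ≤ H d x := fun d x => by rw [hH]; positivity
  -- all walks
  have hsum : ∀ d, d ≤ 2 * R + k → ∑ x ∈ K, |h x.1| * H d x ≤
      SH n p m (p + u + m + v) l (fun X => |h X|) (p + u0 + 2 * d) := by
    intro d hd
    have h1 := disw (L := L) hn0 K d (hKd d hd) (fun X => |h X|) (fun X => abs_nonneg _)
    have e2 : p + u0 + m + v0 = p + u + m + v := by omega
    rw [e2] at h1
    refine le_trans (le_of_eq ?_) h1
    exact Finset.sum_congr rfl (fun x _ => by rw [hH])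
  -- the differences in the classes
  have hdiff : ∀ x ∈ K, |∑ d ∈ range (k + 1), (-1 : ℝ) ^ d * (k.choose d : ℝ) * H (R + d) x| ≤
      C / (R : ℝ) ^ k * (H 0 x + H R x + H (2 * R) x) := by
    intro x hx
    obtain ⟨-, g1, g2, g3, g4, g5, g6, g7, g8⟩ := hKx x hx
    have key := hana x.2.1.card x.2.2.1.card x.2.2.2.1 x.2.2.2.2 g1 g2 g3 g4 g5 g6 g7 g8
    obtain ⟨N0, hN0⟩ : ∃ N0 : ℝ, N0 = ((HW L x.1 x.2.1 x.2.2.1 p (u0 - 2 * x.2.2.2.1) m
      (v0 - 2 * x.2.2.2.2) l 0 0).card : ℝ) := ⟨_, rfl⟩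
    have hN0p : 0 ≤ N0 := by rw [hN0]; positivity
    have e : ∀ d, H d x = bn x.2.1.card x.2.2.1.card x.2.2.2.1 x.2.2.2.2 d * N0 := by
      intro d
      rw [hH, hd_card hc hL, hN0]
    have e1 : ∑ d ∈ range (k + 1), (-1 : ℝ) ^ d * (k.choose d : ℝ) * H (R + d) x =
        (∑ d ∈ range (k + 1), (-1 : ℝ) ^ d * (k.choose d : ℝ) *
          bn x.2.1.card x.2.2.1.card x.2.2.2.1 x.2.2.2.2 (R + d)) * N0 := by
      rw [Finset.sum_mul]
      refine Finset.sum_congr rfl (fun d _ => ?_)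
      rw [e]
      ring
    rw [e1, abs_mul, abs_of_nonneg hN0p, e 0, e R, e (2 * R)]
    calc _ ≤ (C / (R : ℝ) ^ k * (bn x.2.1.card x.2.2.1.card x.2.2.2.1 x.2.2.2.2 0 +
          bn x.2.1.card x.2.2.1.card x.2.2.2.1 x.2.2.2.2 R +
          bn x.2.1.card x.2.2.1.card x.2.2.2.1 x.2.2.2.2 (2 * R))) * N0 :=
          mul_le_mul_of_nonneg_right key hN0p
      _ = _ := by ring
  -- the decomposition at the place `e`
  have hdec : ∀ e, e ≤ k → |∑ w ∈ SW n, h (tr p (p + u + 2 * e) m (p + u + m + v) l w) -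
      ∑ x ∈ K, h x.1 * H (R + e) x| ≤ 2 * β * c := by
    intro e he
    obtain ⟨B1, hB1⟩ : ∃ B, B = (SW n).filter (fun w => ¬ GK κ L p (p + u + 2 * e) w) := ⟨_, rfl⟩
    obtain ⟨B2, hB2⟩ : ∃ B, B = (SW n).filter
      (fun w => ¬ GK κ L (p + u + 2 * e + m) (p + u + m + v) w) := ⟨_, rfl⟩
    have hb1 := hbad1 e he
    have hb2 := hbad2 e he
    rw [← hB1] at hb1
    rw [← hB2] at hb2
    obtain ⟨G, hG⟩ : ∃ G, G = K.biUnion (fun x => Hd L p u0 m v0 l x (R + e)) := ⟨_, rfl⟩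
    have hmem : ∀ x ∈ K, ∀ w, w ∈ Hd L p u0 m v0 l x (R + e) → w ∈ SW n ∧
        tr p (p + u + 2 * e) m (p + u + m + v) l w = x.1 ∧
        DD L 1 (p, p + u + 2 * e) w = x.2.1 ∧
        DD L 1 (p + u + 2 * e + m, p + u + m + v) w = x.2.2.1 ∧
        (OO L 1 (p, p + u + 2 * e) w).card = x.2.2.2.1 + (R + e) ∧
        (OO L 1 (p + u + 2 * e + m, p + u + m + v) w).card = x.2.2.2.2 - (R + e) := by
      intro x hx w hw
      obtain ⟨g1, g2, g3⟩ := hKd (R + e) (by omega) x hx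
      rw [Hd_mem hn0 g1 g2 g3] at hw
      have e1 : p + u0 + 2 * (R + e) = p + u + 2 * e := by omega
      have e2 : p + u0 + m + v0 = p + u + m + v := by omega
      rw [e1, e2] at hw
      exact hw
    have hdisj : ∀ x ∈ K, ∀ x' ∈ K, x ≠ x' →
        Disjoint (Hd L p u0 m v0 l x (R + e)) (Hd L p u0 m v0 l x' (R + e)) := by
      intro x hx x' hx' hne
      rw [Finset.disjoint_left]
      intro w hw hw'
      apply hne
      obtain ⟨-, a1, a2, a3, a4, a5⟩ := hmem x hx w hw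
      obtain ⟨-, b1, b2, b3, b4, b5⟩ := hmem x' hx' w hw'
      obtain ⟨g1, g2, g3⟩ := hKd (R + e) (by omega) x hx
      obtain ⟨g1', g2', g3'⟩ := hKd (R + e) (by omega) x' hx'
      have c4 := a4.symm.trans b4
      have c5 := a5.symm.trans b5
      refine Prod.ext (a1.symm.trans b1) (Prod.ext (a2.symm.trans b2)
        (Prod.ext (a3.symm.trans b3) (Prod.ext ?_ ?_)))
      · show x.2.2.2.1 = x'.2.2.2.1
        omega
      · show x.2.2.2.2 = x'.2.2.2.2
        omega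
    have hGs : G ⊆ SW n := by
      intro w hw
      rw [hG, mem_biUnion] at hw
      obtain ⟨x, hx, hw⟩ := hw
      exact (hmem x hx w hw).1
    have hcov : SW n \ G ⊆ B1 ∪ B2 := by
      intro w hw
      rw [mem_sdiff] at hw
      obtain ⟨hw, hwG⟩ := hw
      rw [mem_union]
      by_cases h3 : w ∈ B1
      · exact Or.inl h3
      by_cases h4 : w ∈ B2
      · exact Or.inr h4
      exfalso
      apply hwG
      rw [hB1, mem_filter] at h3
      push Not at h3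
      rw [hB2, mem_filter] at h4
      push Not at h4
      have g3 := h3 hw
      have g4 := h4 hw
      unfold GK at g3 g4
      have w3 := win_len hL (a := p) (b := p + u + 2 * e) (by omega) (by omega) hw
      have w4 := win_len hL (a := p + u + 2 * e + m) (b := p + u + m + v) (by omega) (by omega) hw
      have d3 := dd_len hL (a := p) (b := p + u + 2 * e) (by omega) hw
      have d4 := dd_len hL (a := p + u + 2 * e + m) (b := p + u + m + v) (by omega) hw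
      have e3 : p + u + 2 * e - p = u + 2 * e := by omega
      have e4 : p + u + m + v - (p + u + 2 * e + m) = v - 2 * e := by omega
      rw [e3] at g3 w3 d3
      rw [e4] at g4 w4 d4
      obtain ⟨q1, q2, q3⟩ := hquo u hbig (u + 2 * e) (by omega) (by omega)
      obtain ⟨q1', q2', q3'⟩ := hquo v hbig' (v - 2 * e) (by omega) (by omega)
      obtain ⟨o, ho⟩ : ∃ o, o = (OO L 1 (p, p + u + 2 * e) w).card := ⟨_, rfl⟩
      obtain ⟨S, hS⟩ : ∃ S, S = (DD L 1 (p, p + u + 2 * e) w).card := ⟨_, rfl⟩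
      obtain ⟨o', ho'⟩ : ∃ o', o' = (OO L 1 (p + u + 2 * e + m, p + u + m + v) w).card := ⟨_, rfl⟩
      obtain ⟨S', hS'⟩ : ∃ S', S' = (DD L 1 (p + u + 2 * e + m, p + u + m + v) w).card :=
        ⟨_, rfl⟩
      obtain ⟨a, ha⟩ : ∃ a, a = (u + 2 * e) / κ := ⟨_, rfl⟩
      obtain ⟨b, hb⟩ : ∃ b, b = (v - 2 * e) / κ := ⟨_, rfl⟩
      rw [← ho, ← hS, ← ha] at g3
      rw [← ho', ← hS', ← hb] at g4
      rw [← ho] at w3
      rw [← ho'] at w4
      rw [← hS] at d3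
      rw [← hS'] at d4
      rw [← ha] at q1 q2 q3
      rw [← hb] at q1' q2' q3'
      obtain ⟨r1, r2⟩ := g3
      obtain ⟨s1, s2⟩ := g4
      have hxK : κe e w ∈ K := by
        rw [hK, mem_filter]
        refine ⟨mem_biUnion.mpr ⟨e, mem_range.mpr (by omega), mem_image_of_mem _ hw⟩, ?_⟩
        rw [hκe]
        simp only
        rw [← ho, ← hS, ← ho', ← hS']
        have f1 : 2 * κ * a ≤ (4 * κ) * (o - (R + e)) := by
          have : a ≤ 2 * (o - (R + e)) := by omega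
          calc 2 * κ * a ≤ 2 * κ * (2 * (o - (R + e))) := Nat.mul_le_mul_left _ this
            _ = _ := by ring
        have f2 : 2 * κ * a ≤ (4 * κ) * (S - (o - (R + e))) := by
          have : a ≤ 2 * (S - (o - (R + e))) := by omega
          calc 2 * κ * a ≤ 2 * κ * (2 * (S - (o - (R + e)))) := Nat.mul_le_mul_left _ this
            _ = _ := by ring
        have f3 : 2 * κ * b ≤ (4 * κ) * (o' + (R + e)) := by
          have : b ≤ 2 * (o' + (R + e)) := by omega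
          calc 2 * κ * b ≤ 2 * κ * (2 * (o' + (R + e))) := Nat.mul_le_mul_left _ this
            _ = _ := by ring
        have f4 : 2 * κ * b ≤ (4 * κ) * (S' - (o' + (R + e))) := by
          have : b ≤ 2 * (S' - (o' + (R + e))) := by omega
          calc 2 * κ * b ≤ 2 * κ * (2 * (S' - (o' + (R + e)))) := Nat.mul_le_mul_left _ this
            _ = _ := by ring
        refine ⟨⟨by omega, by omega, by omega⟩, by omega, by omega, by omega, by omega, by omega,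
          by omega, by omega, by omega⟩
      rw [hG, mem_biUnion]
      refine ⟨κe e w, hxK, ?_⟩
      obtain ⟨z1, z2, z3⟩ := hKd (R + e) (by omega) _ hxK
      rw [Hd_mem hn0 z1 z2 z3, hκe]
      simp only
      have e5 : p + u0 + 2 * (R + e) = p + u + 2 * e := by omega
      have e6 : p + u0 + m + v0 = p + u + m + v := by omega
      rw [e5, e6]
      refine ⟨hw, rfl, rfl, rfl, ?_, ?_⟩
      · rw [← ho]; omega
      · rw [← ho']; omega
    have h1 : ∑ w ∈ SW n, h (tr p (p + u + 2 * e) m (p + u + m + v) l w) =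
        ∑ w ∈ G, h (tr p (p + u + 2 * e) m (p + u + m + v) l w) +
        ∑ w ∈ SW n \ G, h (tr p (p + u + 2 * e) m (p + u + m + v) l w) := by
      have := Finset.sum_sdiff hGs (f := fun w => h (tr p (p + u + 2 * e) m (p + u + m + v) l w))
      linarith
    have h2 : ∑ w ∈ G, h (tr p (p + u + 2 * e) m (p + u + m + v) l w) =
        ∑ x ∈ K, h x.1 * H (R + e) x := by
      rw [hG, Finset.sum_biUnion hdisj]
      refine Finset.sum_congr rfl (fun x hx => ?_)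
      rw [hH, Finset.sum_congr rfl (fun w hw => by rw [(hmem x hx w hw).2.1]), Finset.sum_const,
        nsmul_eq_mul]
      ring
    rw [h1, h2, add_sub_cancel_left]
    calc |∑ w ∈ SW n \ G, h (tr p (p + u + 2 * e) m (p + u + m + v) l w)|
        ≤ ∑ w ∈ SW n \ G, |h (tr p (p + u + 2 * e) m (p + u + m + v) l w)| :=
          Finset.abs_sum_le_sum_abs _ _
      _ ≤ ∑ w ∈ SW n \ G, (1 : ℝ) := Finset.sum_le_sum (fun w _ => hh _)
      _ = ((SW n \ G).card : ℝ) := by simp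
      _ ≤ ((B1 ∪ B2).card : ℝ) := by exact_mod_cast card_le_card hcov
      _ ≤ (B1.card : ℝ) + B2.card := by exact_mod_cast card_union_le _ _
      _ ≤ 2 * β * c := by linarith
  -- conclusion
  have hsplit : ∑ d ∈ range (k + 1), (-1 : ℝ) ^ d * (k.choose d : ℝ) *
        ∑ w ∈ SW n, h (tr p (p + u + 2 * d) m (p + u + m + v) l w) =
      ∑ x ∈ K, h x.1 * ∑ d ∈ range (k + 1), (-1 : ℝ) ^ d * (k.choose d : ℝ) * H (R + d) x +
      ∑ d ∈ range (k + 1), (-1 : ℝ) ^ d * (k.choose d : ℝ) *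
        (∑ w ∈ SW n, h (tr p (p + u + 2 * d) m (p + u + m + v) l w) -
          ∑ x ∈ K, h x.1 * H (R + d) x) := by
    have e1 : ∑ x ∈ K, h x.1 * ∑ d ∈ range (k + 1), (-1 : ℝ) ^ d * (k.choose d : ℝ) *
        H (R + d) x = ∑ d ∈ range (k + 1), (-1 : ℝ) ^ d * (k.choose d : ℝ) *
          ∑ x ∈ K, h x.1 * H (R + d) x := by
      rw [Finset.sum_congr rfl (fun x _ => Finset.mul_sum _ _ _), Finset.sum_comm]
      refine Finset.sum_congr rfl (fun d _ => ?_)
      rw [Finset.mul_sum]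
      refine Finset.sum_congr rfl (fun x _ => ?_)
      ring
    rw [e1, ← Finset.sum_add_distrib]
    refine Finset.sum_congr rfl (fun d _ => ?_)
    ring
  rw [hsplit]
  obtain ⟨Sm, hSm⟩ : ∃ Sm, Sm = SH n p m (p + u + m + v) l (fun X => |h X|) (p + u - 2 * R) +
        SH n p m (p + u + m + v) l (fun X => |h X|) (p + u) +
        SH n p m (p + u + m + v) l (fun X => |h X|) (p + u + 2 * R) := ⟨_, rfl⟩
  rw [← hSm]
  have k1 : |∑ x ∈ K, h x.1 * ∑ d ∈ range (k + 1), (-1 : ℝ) ^ d * (k.choose d : ℝ) *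
      H (R + d) x| ≤ C / (R : ℝ) ^ k * Sm := by
    calc _ ≤ ∑ x ∈ K, |h x.1 * ∑ d ∈ range (k + 1), (-1 : ℝ) ^ d * (k.choose d : ℝ) *
        H (R + d) x| := Finset.abs_sum_le_sum_abs _ _
      _ ≤ ∑ x ∈ K, |h x.1| * (C / (R : ℝ) ^ k * (H 0 x + H R x + H (2 * R) x)) := by
          refine Finset.sum_le_sum (fun x hx => ?_)
          rw [abs_mul]
          exact mul_le_mul_of_nonneg_left (hdiff x hx) (abs_nonneg _)
      _ = C / (R : ℝ) ^ k * (∑ x ∈ K, |h x.1| * H 0 x + ∑ x ∈ K, |h x.1| * H R x +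
            ∑ x ∈ K, |h x.1| * H (2 * R) x) := by
          rw [← Finset.sum_add_distrib, ← Finset.sum_add_distrib, Finset.mul_sum]
          refine Finset.sum_congr rfl (fun x _ => ?_)
          ring
      _ ≤ C / (R : ℝ) ^ k * Sm := by
          have s0 := hsum 0 (by omega)
          have s1 := hsum R (by omega)
          have s2 := hsum (2 * R) (by omega)
          have f0 : p + u0 + 2 * 0 = p + u - 2 * R := by omega
          have f1 : p + u0 + 2 * R = p + u := by omega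
          have f2 : p + u0 + 2 * (2 * R) = p + u + 2 * R := by omega
          rw [f0] at s0
          rw [f1] at s1
          rw [f2] at s2
          have : 0 ≤ C / (R : ℝ) ^ k := by positivity
          refine mul_le_mul_of_nonneg_left ?_ this
          rw [hSm]
          linarith
  have k2 : |∑ d ∈ range (k + 1), (-1 : ℝ) ^ d * (k.choose d : ℝ) *
        (∑ w ∈ SW n, h (tr p (p + u + 2 * d) m (p + u + m + v) l w) -
          ∑ x ∈ K, h x.1 * H (R + d) x)| ≤ 2 ^ k * (2 * β * c) := by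
    calc _ ≤ ∑ d ∈ range (k + 1), |(-1 : ℝ) ^ d * (k.choose d : ℝ) *
        (∑ w ∈ SW n, h (tr p (p + u + 2 * d) m (p + u + m + v) l w) -
          ∑ x ∈ K, h x.1 * H (R + d) x)| := Finset.abs_sum_le_sum_abs _ _
      _ ≤ ∑ d ∈ range (k + 1), (k.choose d : ℝ) * (2 * β * c) := by
          refine Finset.sum_le_sum (fun d hd => ?_)
          rw [abs_mul, abs_mul, abs_pow, abs_neg, abs_one, one_pow, one_mul, Nat.abs_cast]
          exact mul_le_mul_of_nonneg_left (hdec d (by have := mem_range.mp hd; omega))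
            (Nat.cast_nonneg _)
      _ = _ := by
          rw [← Finset.sum_mul]
          congr 1
          have := Nat.sum_range_choose k
          exact_mod_cast this
  refine (abs_add_le _ _).trans ?_
  calc _ ≤ C / (R : ℝ) ^ k * Sm + 2 ^ k * (2 * β * c) := add_le_add k1 k2
    _ = _ := by ring

end

end Pool.Agent.N949.TR
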