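import Pool.Agent.N949.TR.Fin2
import Pool.Agent.N929.EZ.Poly

/-!
# Regularity in time to all orders: polygons
-/

set_option autoImplicit false
set_option maxHeartbeats 4000000
set_option linter.unusedVariables false

namespace Pool.Agent.N949.TR

open Pool.Agent.H976R2 Pool.Agent.H976R2.Dir Finset
open Pool.Agent.N929.EX Pool.Agent.N929.EY
open Pool.Agent.H739K (KP)
open scoped Classical

noncomputable section

/-- the last of the three pieces ends at a neighbour of the origin -/
def Clo (l : ℕ) (X : TP) : Prop := ((X.2.2 l).1 : ℝ) ^ 2 + ((X.2.2 l).2 : ℝ) ^ 2 = 1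

theorem clo_iff {n p t m r l : ℕ} (hn : n = r + l) {w : List Dir} (hw : w ∈ SW n) :
    Clo l (tr p t m r l w) ↔ Pool.Agent.H976R2.sq w = 1 := by
  have hl := (mem_SW.mp hw).1
  unfold Clo tr pc Pool.Agent.H976R2.sq
  simp only [min_self]
  unfold Lip.PP
  rw [List.take_of_length_le (by omega)]

theorem SH_clo {n p m r l : ℕ} (hn : n = r + l) (g : TP → ℝ) (t : ℕ) :
    SH n p m r l (fun X => if Clo l X then g X else 0) t = ∑ w ∈ KP n, g (tr p t m r l w) := by
  unfold SH KP
  rw [Finset.sum_filter]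
  refine Finset.sum_congr rfl (fun w hw => ?_)
  simp only [clo_iff hn hw]

theorem trp (htr : S_TRB) (k : ℕ) : ∃ C : ℝ, 0 < C ∧ ∀ N M s p q m r : ℕ, 2 ≤ N → 1 ≤ s →
    C * Real.log N ^ 2 ≤ M → p + M ≤ q → q + 2 * (k * s) + m + M ≤ r → r ≤ 2 * N - 1 →
    ∀ g : TP → ℝ, (∀ X, |g X| ≤ 1) → ∀ B : ℝ, 0 ≤ B →
      (∀ t : ℕ, q ≤ t + 2 * Nat.sqrt M → t ≤ q + 2 * (k * s) + 2 * Nat.sqrt M →
        t % 2 = q % 2 →
        ∑ w ∈ KP (2 * N - 1), |g (tr p t m r (2 * N - 1 - r) w)| ≤
          B * ((KP (2 * N - 1)).card : ℝ)) →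
      |∑ j ∈ Finset.range (k + 1), (-1 : ℝ) ^ j * (k.choose j : ℝ) *
        ∑ w ∈ KP (2 * N - 1), g (tr p (q + 2 * (s * j)) m r (2 * N - 1 - r) w)| ≤
      (C * (s / Real.sqrt M) ^ k * B + C * Real.exp (-(M / C))) *
        ((KP (2 * N - 1)).card : ℝ) := by
  obtain ⟨A, C0, hA, hC0, h⟩ := htr k
  obtain ⟨K, hK, hlow⟩ := Pool.Agent.N929.EZ.KP_low
  obtain ⟨C, hC⟩ : ∃ C : ℝ, C = 4 * A + 2 * C0 + 8 * C0 * K := ⟨_, rfl⟩
  have hCp : 0 < C := by rw [hC]; positivity
  refine ⟨C, hCp, fun N M s p q m r hN hs hCM hpq hqr hrn g hg B hB hBt => ?_⟩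
  obtain ⟨n, hn⟩ : ∃ n, n = 2 * N - 1 := ⟨_, rfl⟩
  rw [← hn] at hrn hBt ⊢
  have hn3 : 3 ≤ n := by omega
  have ho : n % 2 = 1 := by omega
  have hN' : (2 : ℝ) ≤ N := by exact_mod_cast hN
  have hlogN : (0.476 : ℝ) ≤ Real.log N ^ 2 := log_lo hN
  have hlog : Real.log n ^ 2 ≤ 4 * Real.log N ^ 2 := by
    have h1 : Real.log n ≤ 2 * Real.log N := by
      have h2 : (n : ℝ) ≤ (N : ℝ) ^ 2 := by
        have h3 : n ≤ N ^ 2 := by
          have : 2 * N ≤ N ^ 2 := by nlinarith
          omega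
        exact_mod_cast h3
      have h4 : (0 : ℝ) < n := by
        have : 0 < n := by omega
        exact_mod_cast this
      calc Real.log n ≤ Real.log ((N : ℝ) ^ 2) := Real.log_le_log h4 h2
        _ = 2 * Real.log N := by rw [Real.log_pow]; norm_num
    have h5 : 0 ≤ Real.log n := Real.log_nonneg (by
      have : 1 ≤ n := by omega
      exact_mod_cast this)
    calc Real.log n ^ 2 ≤ (2 * Real.log N) ^ 2 := pow_le_pow_left₀ h5 h1 2
      _ = _ := by ring
  have hAM : A * Real.log n ^ 2 ≤ M := by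
    calc A * Real.log n ^ 2 ≤ A * (4 * Real.log N ^ 2) := mul_le_mul_of_nonneg_left hlog hA.le
      _ = 4 * A * Real.log N ^ 2 := by ring
      _ ≤ C * Real.log N ^ 2 := by
          refine mul_le_mul_of_nonneg_right ?_ (by positivity)
          rw [hC]
          have : 0 ≤ C0 * K := by positivity
          linarith
      _ ≤ M := hCM
  have hKM : K * Real.log n ^ 2 ≤ M / (2 * C0) := by
    rw [le_div_iff₀ (by positivity)]
    calc K * Real.log n ^ 2 * (2 * C0) ≤ K * (4 * Real.log N ^ 2) * (2 * C0) := by gcongr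
      _ = 8 * C0 * K * Real.log N ^ 2 := by ring
      _ ≤ C * Real.log N ^ 2 := by
          refine mul_le_mul_of_nonneg_right ?_ (by positivity)
          rw [hC]
          linarith
      _ ≤ M := hCM
  have hMpos : (0 : ℝ) < M := by
    have : 0 < C * Real.log N ^ 2 := by positivity
    linarith
  obtain ⟨h', hh'⟩ : ∃ h' : TP → ℝ, h' = fun X => if Clo (n - r) X then g X else 0 := ⟨_, rfl⟩
  have habs : (fun X => |h' X|) = fun X => if Clo (n - r) X then |g X| else 0 := by
    funext X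
    rw [hh']
    simp only
    split_ifs <;> simp
  obtain ⟨u, hu⟩ : ∃ u, u = q - p := ⟨_, rfl⟩
  obtain ⟨v, hv⟩ : ∃ v, v = r - q - m := ⟨_, rfl⟩
  have e1 : p + u = q := by omega
  have e2 : p + u + m + v = r := by omega
  have hnr : n = r + (n - r) := by omega
  obtain ⟨c, hcc⟩ : ∃ c : ℝ, c = ((KP n).card : ℝ) := ⟨_, rfl⟩
  have hc0 : 0 ≤ c := by rw [hcc]; exact Nat.cast_nonneg _
  rw [← hcc] at hBt ⊢
  have hlow' := hlow n hn3 ho
  rw [← hcc] at hlow'
  have key := h n p u m v (n - r) M s (by omega) (by omega) hs hAM (by omega) (by omega) h'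
    (fun X => by
      rw [hh']
      simp only
      split_ifs
      · exact hg X
      · simp) (B * c) (by positivity) (by
      intro t ht1 ht2 ht3
      rw [e2, habs, SH_clo hnr (fun X => |g X|)]
      rw [e1] at ht1 ht2 ht3
      exact hBt t ht1 ht2 ht3)
  rw [e2, e1] at key
  have e3 : ∀ t, SH n p m r (n - r) h' t = ∑ w ∈ KP n, g (tr p t m r (n - r) w) := by
    intro t
    rw [hh', SH_clo hnr g]
  simp only [e3] at key
  refine key.trans ?_
  have h5 : C0 * (s / Real.sqrt M) ^ k * (B * c) ≤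
      C * (s / Real.sqrt M) ^ k * B * c := by
    have h6 : C0 ≤ C := by rw [hC]; have : 0 ≤ C0 * K := by positivity
                           linarith
    calc C0 * (s / Real.sqrt M) ^ k * (B * c) =
        C0 * ((s / Real.sqrt M) ^ k * B * c) := by ring
      _ ≤ C * ((s / Real.sqrt M) ^ k * B * c) := by gcongr
      _ = _ := by ring
  have h7 : C0 * Real.exp (-(M / C0)) * ((SW n).card : ℝ) ≤
      C * Real.exp (-(M / C)) * c := by
    have h6 : C0 ≤ C := by rw [hC]; have : 0 ≤ C0 * K := by positivity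
                           linarith
    have h6' : 2 * C0 ≤ C := by rw [hC]; have : 0 ≤ C0 * K := by positivity
                                linarith
    have h8 : Real.exp (-(M / C0)) * Real.exp (K * Real.log n ^ 2) ≤ Real.exp (-(M / C)) := by
      rw [← Real.exp_add]
      apply Real.exp_le_exp.mpr
      have h9 : (M : ℝ) / C ≤ M / (2 * C0) :=
        div_le_div_of_nonneg_left hMpos.le (by positivity) h6'
      have h10 : (M : ℝ) / C0 = M / (2 * C0) + M / (2 * C0) := by
        field_simp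
        ring
      linarith
    calc C0 * Real.exp (-(M / C0)) * ((SW n).card : ℝ)
        ≤ C0 * Real.exp (-(M / C0)) * (Real.exp (K * Real.log n ^ 2) * c) :=
          mul_le_mul_of_nonneg_left hlow' (by positivity)
      _ = C0 * (Real.exp (-(M / C0)) * Real.exp (K * Real.log n ^ 2)) * c := by
          ring
      _ ≤ C * Real.exp (-(M / C)) * c := by gcongr
  calc _ ≤ C * (s / Real.sqrt M) ^ k * B * c +
        C * Real.exp (-(M / C)) * c := add_le_add h5 h7
    _ = _ := by ring

end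

end Pool.Agent.N949.TR
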