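import Pool.Agent.N949.TR.Poly
import Pool.Agent.N949.TR.All2
import Pool.Agent.R54.AS.Fin

/-! Project TR: polygons, unconditionally. -/

set_option autoImplicit false

namespace Pool.Agent.N949.TR

open Pool.Agent.H976R2 Pool.Agent.H739K Finset
open Pool.Agent.N929.EY (TP tr)

theorem s_trp (k : ℕ) : ∃ C : ℝ, 0 < C ∧ ∀ N M s p q m r : ℕ, 2 ≤ N → 1 ≤ s →
    C * Real.log N ^ 2 ≤ M → p + M ≤ q → q + 2 * (k * s) + m + M ≤ r → r ≤ 2 * N - 1 →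
    ∀ g : TP → ℝ, (∀ X, |g X| ≤ 1) → ∀ B : ℝ, 0 ≤ B →
      (∀ t : ℕ, q ≤ t + 2 * Nat.sqrt M → t ≤ q + 2 * (k * s) + 2 * Nat.sqrt M →
        t % 2 = q % 2 →
        ∑ w ∈ KP (2 * N - 1), |g (tr p t m r (2 * N - 1 - r) w)| ≤
          B * ((KP (2 * N - 1)).card : ℝ)) →
      |∑ j ∈ Finset.range (k + 1), (-1 : ℝ) ^ j * (k.choose j : ℝ) *
        ∑ w ∈ KP (2 * N - 1), g (tr p (q + 2 * (s * j)) m r (2 * N - 1 - r) w)| ≤
      (C * (s / Real.sqrt M) ^ k * B + C * Real.exp (-(M / C))) *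
        ((KP (2 * N - 1)).card : ℝ) := trp s_trb k

end Pool.Agent.N949.TR
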