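import Pool.Agent.N929.EY.MI
import Pool.Agent.N929.EG.Stm

/-!
# Regularity in time, to all orders, of the planar self-avoiding walk with a fixed number of steps

Statements of the tasks of the project TR.
-/

set_option autoImplicit false
set_option linter.unusedVariables false

namespace Pool.Agent.N949.TR

open Pool.Agent.H976R2 Pool.Agent.H976R2.Dir Finset
open Pool.Agent.N929.EX Pool.Agent.N929.EY
open scoped Classical

noncomputable section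

/-- the sizes of the classes as a function of the number `t` of bumps moved from the second to the
first window -/
def bn (S S' i j t : ℕ) : ℝ := (S.choose (i + t) : ℝ) * (S'.choose (j - t) : ℝ)

/-- ANA: the `k`-th differences of the sizes of the classes are small, pointwise, compared with the
sizes at three places -/
def S_ANA : Prop :=
  ∀ k κ : ℕ, 1 ≤ κ → ∃ (C : ℝ) (κ' : ℕ), 0 < C ∧ 1 ≤ κ' ∧ ∀ S S' i j R : ℕ, 1 ≤ R →
    κ' * R ^ 2 ≤ S → κ' * R ^ 2 ≤ S' → S ≤ κ * i → i ≤ S → S ≤ κ * (S - i) →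
    S' ≤ κ * j → j ≤ S' → S' ≤ κ * (S' - j) →
    |∑ d ∈ range (k + 1), (-1 : ℝ) ^ d * (k.choose d : ℝ) * bn S S' i j (R + d)| ≤
      C / (R : ℝ) ^ k * (bn S S' i j 0 + bn S S' i j R + bn S S' i j (2 * R))

/-- many free and many occupied slots in the window -/
def GK (κ : ℕ) (L : Finset (ℤ × ℤ)) (a b : ℕ) (w : List Dir) : Prop :=
  (b - a) / κ ≤ (OO L 1 (a, b) w).card ∧
    (OO L 1 (a, b) w).card + (b - a) / κ ≤ (DD L 1 (a, b) w).card

/-- PICK: one family which is good in several windows for most walks -/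
def S_PICK : Prop :=
  ∃ κ : ℕ, 1 ≤ κ ∧ ∀ k N : ℕ, ∃ A C : ℝ, 0 < A ∧ 0 < C ∧ ∀ n : ℕ, 2 ≤ n →
    ∀ (W : Fin N → ℕ × ℕ) (x : ℝ), 1 ≤ x →
      (∀ t, (W t).1 ≤ (W t).2 ∧ (W t).2 ≤ n ∧ A * Real.log n ^ 2 ≤ ((W t).2 : ℝ) - (W t).1 ∧
        x ≤ (((W t).2 - (W t).1 : ℕ) : ℝ)) →
      ∃ L : Finset (ℤ × ℤ), CF L ∧
        ∀ t, (((SW n).filter (fun w => ¬ GK κ L (W t).1 (W t).2 w)).card : ℝ) ≤
          C / x ^ k * ((SW n).card : ℝ)

/-- TRM: the `k`-th differences with step 2 -/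
def S_TRM : Prop :=
  ∀ k : ℕ, ∃ A C : ℝ, 0 < A ∧ 0 < C ∧ ∀ n p u m v l : ℕ, n = p + u + m + v + l → 2 ≤ n →
    A * Real.log n ^ 2 ≤ u → A * Real.log n ^ 2 ≤ v → ∀ h : TP → ℝ, (∀ X, |h X| ≤ 1) →
      |∑ d ∈ range (k + 1), (-1 : ℝ) ^ d * (k.choose d : ℝ) *
        ∑ w ∈ SW n, h (tr p (p + u + 2 * d) m (p + u + m + v) l w)| ≤
      C * (1 / Real.sqrt u + 1 / Real.sqrt v) ^ k * ((SW n).card : ℝ)

/-- STEP: from the step `1` to the step `s` -/
def S_STEP : Prop :=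
  ∀ (k s : ℕ) (F : ℕ → ℝ) (B : ℝ), 1 ≤ s →
    (∀ e, e + k ≤ k * s →
      |∑ d ∈ range (k + 1), (-1 : ℝ) ^ d * (k.choose d : ℝ) * F (e + d)| ≤ B) →
    |∑ d ∈ range (k + 1), (-1 : ℝ) ^ d * (k.choose d : ℝ) * F (s * d)| ≤ (s : ℝ) ^ k * B

end

end Pool.Agent.N949.TR
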